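import Pool.Agent.Lib.MP_3063eb_nt.SieveOne

/-!
# The least good prime `q` is almost always larger than `(log n)² log log n / w(n)`
-/

set_option autoImplicit false

open Finset Filter Topology

namespace Pool.Agent.Results.MP_3063eb_nt.LeastGood

open Pool.Agent.Lib.MP_3063eb_nt

/-- the `k`-th prime, `pr 1 = 2`, `pr 2 = 3`, `pr 3 = 5`, ... -/
noncomputable def pr (k : ℕ) : ℕ := Nat.nth Nat.Prime (k - 1)

/-- `q` is good for `n`: `q` is a prime below `n` and `3 (p_{n-q} + q) ± 1` are both prime -/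
def Good (n q : ℕ) : Prop :=
  q.Prime ∧ q < n ∧ (3 * (pr (n - q) + q) - 1).Prime ∧ (3 * (pr (n - q) + q) + 1).Prime

lemma pr_prime (k : ℕ) : (pr k).Prime := Nat.prime_nth_prime _

lemma pr_ge (k : ℕ) : k ≤ pr k := by
  have := Nat.add_two_le_nth_prime (k - 1)
  unfold pr
  omega

lemma pr_mono {a b : ℕ} (h : a ≤ b) : pr a ≤ pr b :=
  (Nat.nth_strictMono Nat.infinite_setOfPred_prime).monotone (by omega)

lemma pr_count (N : ℕ) (hN : 1 ≤ N) : Nat.primeCounting (pr N) = N := by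
  unfold Nat.primeCounting Nat.primeCounting' pr
  rw [Nat.count_nth_succ_of_infinite Nat.infinite_setOfPred_prime]
  omega

/-- Chebyshev: `p_N / log p_N ≤ 12 N` -/
lemma pr_bound (N : ℕ) (hN : 1 ≤ N) : (pr N : ℝ) / Real.log (pr N) ≤ 12 * N := by
  have h2 : 2 ≤ pr N := (pr_prime N).two_le
  have hR : (2 : ℝ) ≤ pr N := by exact_mod_cast h2
  have h := Chebyshev.pi_ge (pr N)
  rw [pr_count N hN] at h
  set x : ℝ := (pr N : ℝ) with hx
  have hx0 : 0 < x := by linarith
  have hlog : 0 < Real.log x := Real.log_pos (by linarith)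
  have hl2 := Real.log_two_gt_d9
  have h3 : Real.log (x + 1) ≤ Real.log 2 + ((x + 1) / 2 - 1) := by
    have e : x + 1 = 2 * ((x + 1) / 2) := by ring
    rw [e, Real.log_mul (by norm_num) (by positivity)]
    have := Real.log_le_sub_one_of_pos (by positivity : 0 < (x + 1) / 2)
    have e2 : 2 * ((x + 1) / 2) / 2 - 1 = (x + 1) / 2 - 1 := by ring
    rw [e2]
    linarith
  have h4 : x / 12 ≤ x * Real.log 2 - Real.log (x + 1) := by nlinarith
  rw [div_le_iff₀ hlog] at h ⊢
  linarith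

/-- the sum over the primes `q ≤ y` -/
lemma main_bound : ∃ C : ℝ, 0 < C ∧ ∀ N y : ℕ, 2 ≤ N → 2 ≤ y →
    (Nat.card {n : ℕ | n ≤ N ∧ ∃ q, q ≤ y ∧ Good n q} : ℝ) ≤
      C * N * ((y : ℝ) / Real.log y) / (Real.log N) ^ 2 := by
  classical
  obtain ⟨C₁, hC₁, h₁⟩ := avg_rr (fun q => 3 * q - 1) (fun q hq => by omega)
    (fun q hq => by omega)
    (fun d q q' hq hq' hd hd' => by
      have hc : Nat.Coprime d 3 := by
        rw [Nat.coprime_comm, Nat.Prime.coprime_iff_not_dvd Nat.prime_three]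
        intro h3
        have := h3.trans hd
        omega
      have hm : 3 * q ≡ 3 * q' [MOD d] := by
        have a1 : 3 * q - 1 ≡ 3 * q' - 1 [MOD d] :=
          ((Nat.modEq_zero_iff_dvd).2 hd).trans ((Nat.modEq_zero_iff_dvd).2 hd').symm
        have a2 := a1.add_right 1
        have e1 : 3 * q - 1 + 1 = 3 * q := by omega
        have e2 : 3 * q' - 1 + 1 = 3 * q' := by omega
        rwa [e1, e2] at a2
      exact Nat.ModEq.cancel_left_of_coprime hc hm)
  obtain ⟨C₂, hC₂, h₂⟩ := avg_rr (fun q => 3 * q + 1) (fun q hq => by omega)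
    (fun q hq => by omega)
    (fun d q q' hq hq' hd hd' => by
      have hc : Nat.Coprime d 3 := by
        rw [Nat.coprime_comm, Nat.Prime.coprime_iff_not_dvd Nat.prime_three]
        intro h3
        have := h3.trans hd
        omega
      have hm : 3 * q ≡ 3 * q' [MOD d] := by
        have a1 : 3 * q + 1 ≡ 3 * q' + 1 [MOD d] :=
          ((Nat.modEq_zero_iff_dvd).2 hd).trans ((Nat.modEq_zero_iff_dvd).2 hd').symm
        exact Nat.ModEq.add_right_cancel' 1 a1
      exact Nat.ModEq.cancel_left_of_coprime hc hm)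
  refine ⟨200000 * 12 * (C₁ + C₂), by positivity, ?_⟩
  intro N y hN hy
  have hNR : (2 : ℝ) ≤ N := by exact_mod_cast hN
  have hyR : (2 : ℝ) ≤ y := by exact_mod_cast hy
  have hlogN : 0 < Real.log N := Real.log_pos (by linarith)
  have hlogy : 0 < Real.log y := Real.log_pos (by linarith)
  set X := pr N with hX
  have hX2 : 2 ≤ X := (pr_prime N).two_le
  have hXN : N ≤ X := pr_ge N
  have hXR : (2 : ℝ) ≤ X := by exact_mod_cast hX2
  have hXNR : (N : ℝ) ≤ X := by exact_mod_cast hXN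
  have hlogX : Real.log N ≤ Real.log X := Real.log_le_log (by linarith) hXNR
  have hlogX0 : 0 < Real.log X := by linarith
  -- the covering
  set S : ℕ → Finset ℕ := fun q =>
    (Icc 1 X).filter (fun m => m.Prime ∧ (3 * (m + q) - 1).Prime ∧ (3 * (m + q) + 1).Prime) with hS
  set T : ℕ → Finset ℕ := fun q => (Icc 1 N).filter (fun n => Good n q) with hT
  have hTS : ∀ q, (T q).card ≤ (S q).card := by
    intro q
    apply Finset.card_le_card_of_injOn (fun n => pr (n - q))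
    · intro n hn
      simp only [hT, coe_filter, mem_Icc, Set.mem_ofPred_eq] at hn
      simp only [hS, coe_filter, mem_Icc, Set.mem_ofPred_eq]
      refine ⟨⟨(pr_prime _).one_lt.le, pr_mono (by omega)⟩, pr_prime _, hn.2.2.2.1, hn.2.2.2.2⟩
    · intro n hn n' hn' hnn
      simp only [hT, coe_filter, mem_Icc, Set.mem_ofPred_eq] at hn hn'
      have h := Nat.nth_injective Nat.infinite_setOfPred_prime hnn
      have a1 := hn.2.2.1
      have a2 := hn'.2.2.1
      omega
  have hcover : {n : ℕ | n ≤ N ∧ ∃ q, q ≤ y ∧ Good n q} ⊆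
      (((Icc 1 y).filter Nat.Prime).biUnion T : Finset ℕ) := by
    rintro n ⟨hn, q, hq, hg⟩
    rw [mem_coe, mem_biUnion]
    have hqp := hg.1
    have hqn := hg.2.1
    refine ⟨q, ?_, ?_⟩
    · rw [mem_filter, mem_Icc]
      exact ⟨⟨hqp.one_lt.le, hq⟩, hqp⟩
    · simp only [hT, mem_filter, mem_Icc]
      exact ⟨⟨by omega, hn⟩, hg⟩
  have hcardle : Nat.card {n : ℕ | n ≤ N ∧ ∃ q, q ≤ y ∧ Good n q} ≤
      ∑ q ∈ (Icc 1 y).filter Nat.Prime, (S q).card := by
    calc Nat.card {n : ℕ | n ≤ N ∧ ∃ q, q ≤ y ∧ Good n q}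
        ≤ Nat.card ((((Icc 1 y).filter Nat.Prime).biUnion T : Finset ℕ) : Set ℕ) :=
          Nat.card_mono (Finset.finite_toSet _) hcover
      _ = (((Icc 1 y).filter Nat.Prime).biUnion T).card := by
          rw [Nat.card_coe_set_eq, Set.ncard_coe_finset]
      _ ≤ ∑ q ∈ (Icc 1 y).filter Nat.Prime, (T q).card := Finset.card_biUnion_le
      _ ≤ ∑ q ∈ (Icc 1 y).filter Nat.Prime, (S q).card := Finset.sum_le_sum (fun q _ => hTS q)
  have hcardle' : (Nat.card {n : ℕ | n ≤ N ∧ ∃ q, q ≤ y ∧ Good n q} : ℝ) ≤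
      ∑ q ∈ (Icc 1 y).filter Nat.Prime, ((S q).card : ℝ) := by exact_mod_cast hcardle
  set W : ℝ := (X : ℝ) / (Real.log X) ^ 3 with hW
  have hW0 : 0 < W := by positivity
  have hWN : W ≤ 12 * N / (Real.log N) ^ 2 := by
    have e1 := pr_bound N (by omega)
    rw [← hX] at e1
    have e2 : W = ((X : ℝ) / Real.log X) / (Real.log X) ^ 2 := by
      rw [hW]
      field_simp
    rw [e2]
    have e3 : (Real.log N) ^ 2 ≤ (Real.log X) ^ 2 := by gcongr
    calc ((X : ℝ) / Real.log X) / (Real.log X) ^ 2 ≤ (12 * N) / (Real.log X) ^ 2 := by gcongr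
      _ ≤ 12 * N / (Real.log N) ^ 2 := by
          apply div_le_div_of_nonneg_left (by positivity) (by positivity) e3
  calc (Nat.card {n : ℕ | n ≤ N ∧ ∃ q, q ≤ y ∧ Good n q} : ℝ)
      ≤ ∑ q ∈ (Icc 1 y).filter Nat.Prime, ((S q).card : ℝ) := hcardle'
    _ ≤ ∑ q ∈ (Icc 1 y).filter Nat.Prime,
          200000 * ((rr (3 * q - 1)) ^ 6 + (rr (3 * q + 1)) ^ 6) * W := by
        apply Finset.sum_le_sum
        intro q hq
        rw [mem_filter, mem_Icc] at hq
        exact sieve_one q X hq.1.1 hX2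
    _ = 200000 * (∑ q ∈ (Icc 1 y).filter Nat.Prime, (rr (3 * q - 1)) ^ 6 +
          ∑ q ∈ (Icc 1 y).filter Nat.Prime, (rr (3 * q + 1)) ^ 6) * W := by
        rw [← Finset.sum_mul, ← Finset.mul_sum, Finset.sum_add_distrib]
    _ ≤ 200000 * (C₁ * ((y : ℝ) / Real.log y) + C₂ * ((y : ℝ) / Real.log y)) * W := by
        have b1 := h₁ y hy
        have b2 := h₂ y hy
        gcongr
    _ ≤ 200000 * (C₁ * ((y : ℝ) / Real.log y) + C₂ * ((y : ℝ) / Real.log y)) *
          (12 * N / (Real.log N) ^ 2) := by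
        gcongr
    _ = 200000 * 12 * (C₁ + C₂) * N * ((y : ℝ) / Real.log y) / (Real.log N) ^ 2 := by ring

/-- the numerical step for the density statement -/
lemma numeric (K L : ℝ) (hK : 0 < K) (hL3 : 3 ≤ L) (hLK : K ≤ L) :
    let y : ℕ := ⌊L ^ 2 * Real.log L / K⌋₊ + 2
    (y : ℝ) / Real.log y ≤ 2 * L ^ 2 / K := by
  intro y
  have hl : 1 ≤ Real.log L := by
    rw [Real.le_log_iff_exp_le (by linarith)]
    have := Real.exp_one_lt_d9
    linarith
  set l := Real.log L with hldef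
  have hL0 : 0 < L := by linarith
  have h0 : 0 ≤ L ^ 2 * l / K := by positivity
  have hy : (y : ℝ) = (⌊L ^ 2 * l / K⌋₊ : ℝ) + 2 := by
    simp only [y]
    push_cast
    ring
  have h1 : (y : ℝ) ≤ L ^ 2 * l / K + 2 := by
    rw [hy]
    have := Nat.floor_le h0
    linarith
  have h2 : L ≤ (y : ℝ) := by
    have e1 := Nat.lt_floor_add_one (L ^ 2 * l / K)
    have e2 : L ≤ L ^ 2 * l / K := by
      rw [le_div_iff₀ hK]
      have e3 : L * 1 ≤ L * l := mul_le_mul_of_nonneg_left hl hL0.le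
      nlinarith
    rw [hy]
    linarith
  have h3 : l ≤ Real.log y := Real.log_le_log hL0 h2
  have hl0 : 0 < l := by linarith
  have hy0 : (0 : ℝ) < y := by linarith
  calc (y : ℝ) / Real.log y ≤ (y : ℝ) / l := by
        apply div_le_div_of_nonneg_left hy0.le hl0 h3
    _ ≤ (L ^ 2 * l / K + 2) / l := by gcongr
    _ = L ^ 2 / K + 2 / l := by field_simp
    _ ≤ L ^ 2 / K + L ^ 2 / K := by
        have e1 : 2 / l ≤ 2 := by
          rw [div_le_iff₀ hl0]
          linarith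
        have e2 : 2 ≤ L ^ 2 / K := by
          rw [le_div_iff₀ hK]
          nlinarith
        linarith
    _ = 2 * L ^ 2 / K := by ring

/-- **Theorem.** Write `p_k` for the `k`-th prime and call a prime `q < n` good for `n` when
`3 (p_{n-q} + q) - 1` and `3 (p_{n-q} + q) + 1` are both prime.
(1) The number of `n ≤ N` with a good prime `q ≤ y` is at most `C N (y / log y) / (log N)²`,
uniformly for all `N, y ≥ 2`.
(2) If `w(n) → ∞` then almost all `n` have no good prime `q ≤ (log n)² log log n / w(n)`. -/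
theorem result :
    (∃ C : ℝ, 0 < C ∧ ∀ N y : ℕ, 2 ≤ N → 2 ≤ y →
      (Nat.card {n : ℕ | n ≤ N ∧ ∃ q, q ≤ y ∧ Good n q} : ℝ) ≤
        C * N * ((y : ℝ) / Real.log y) / (Real.log N) ^ 2) ∧
    ∀ w : ℕ → ℝ, Tendsto w atTop atTop →
      Tendsto (fun N : ℕ => (Nat.card {n : ℕ | n ≤ N ∧ ∃ q : ℕ,
        (q : ℝ) ≤ (Real.log n) ^ 2 * Real.log (Real.log n) / w n ∧ Good n q} : ℝ) / N)
        atTop (𝓝 0) := by
  refine ⟨main_bound, ?_⟩
  intro w hw
  obtain ⟨C, hC, hmain⟩ := main_bound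
  rw [Metric.tendsto_atTop]
  intro ε hε
  set K : ℝ := 4 * C / ε with hK
  have hK0 : 0 < K := by positivity
  obtain ⟨n₀, hn₀⟩ := Filter.eventually_atTop.1 (hw.eventually_ge_atTop K)
  set n₁ := max n₀ 3 with hn₁
  have hlogt : Tendsto (fun N : ℕ => Real.log (N : ℝ)) atTop atTop :=
    Real.tendsto_log_atTop.comp tendsto_natCast_atTop_atTop
  obtain ⟨N₁, hN₁⟩ := Filter.eventually_atTop.1 (hlogt.eventually_ge_atTop (max K 3))
  obtain ⟨N₂, hN₂⟩ := exists_nat_gt ((n₁ : ℝ) * 2 / ε)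
  refine ⟨max (max N₁ N₂) 3, ?_⟩
  intro N hN
  have hNN₁ : N₁ ≤ N := ((le_max_left _ _).trans (le_max_left _ _)).trans hN
  have hNN₂ : N₂ ≤ N := ((le_max_right _ _).trans (le_max_left _ _)).trans hN
  have hN3 : 3 ≤ N := (le_max_right _ _).trans hN
  have hNR : (3 : ℝ) ≤ N := by exact_mod_cast hN3
  have hN0 : (0 : ℝ) < N := by linarith
  have hL := hN₁ N hNN₁
  set L := Real.log (N : ℝ) with hLdef
  have hLK : K ≤ L := (le_max_left _ _).trans hL
  have hL3 : 3 ≤ L := (le_max_right _ _).trans hL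
  have hL0 : 0 < L := by linarith
  have hnum := numeric K L hK0 hL3 hLK
  simp only at hnum
  set y : ℕ := ⌊L ^ 2 * Real.log L / K⌋₊ + 2 with hy
  -- the covering
  have hsub : {n : ℕ | n ≤ N ∧ ∃ q : ℕ,
        (q : ℝ) ≤ (Real.log n) ^ 2 * Real.log (Real.log n) / w n ∧ Good n q} ⊆
      (Set.Iio n₁) ∪ {n : ℕ | n ≤ N ∧ ∃ q, q ≤ y ∧ Good n q} := by
    rintro n ⟨hn, q, hq, hg⟩
    rcases lt_or_ge n n₁ with h | h
    · exact Or.inl h
    · right
      refine ⟨hn, q, ?_, hg⟩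
      have hn3 : 3 ≤ n := (le_max_right _ _).trans h
      have hnR : (3 : ℝ) ≤ n := by exact_mod_cast hn3
      have hnN : (n : ℝ) ≤ N := by exact_mod_cast hn
      have hwn : K ≤ w n := hn₀ n ((le_max_left _ _).trans h)
      have hln : 1 ≤ Real.log n := by
        rw [Real.le_log_iff_exp_le (by linarith)]
        have := Real.exp_one_lt_d9
        linarith
      have hlnN : Real.log n ≤ L := Real.log_le_log (by linarith) hnN
      have hlln : Real.log (Real.log n) ≤ Real.log L := Real.log_le_log (by linarith) hlnN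
      have hlln0 : 0 ≤ Real.log (Real.log n) := Real.log_nonneg hln
      have hle : (Real.log n) ^ 2 * Real.log (Real.log n) / w n ≤ L ^ 2 * Real.log L / K := by
        have hnum0 : 0 ≤ L ^ 2 * Real.log L := by
          have := hlln0.trans hlln
          positivity
        apply div_le_div₀ hnum0 _ hK0 hwn
        gcongr
      have hq' : q ≤ ⌊L ^ 2 * Real.log L / K⌋₊ := Nat.le_floor (hq.trans hle)
      omega
  have hfin : ((Set.Iio n₁) ∪ {n : ℕ | n ≤ N ∧ ∃ q, q ≤ y ∧ Good n q}).Finite := by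
    apply (Set.finite_Iio n₁).union
    exact (Set.finite_Iic N).subset (fun n hn => hn.1)
  have hcard : Nat.card {n : ℕ | n ≤ N ∧ ∃ q : ℕ,
        (q : ℝ) ≤ (Real.log n) ^ 2 * Real.log (Real.log n) / w n ∧ Good n q} ≤
      n₁ + Nat.card {n : ℕ | n ≤ N ∧ ∃ q, q ≤ y ∧ Good n q} := by
    rw [Nat.card_coe_set_eq, Nat.card_coe_set_eq]
    calc _ ≤ ((Set.Iio n₁) ∪ {n : ℕ | n ≤ N ∧ ∃ q, q ≤ y ∧ Good n q}).ncard :=
          Set.ncard_le_ncard hsub hfin
      _ ≤ (Set.Iio n₁).ncard + ({n : ℕ | n ≤ N ∧ ∃ q, q ≤ y ∧ Good n q}).ncard :=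
          Set.ncard_union_le _ _
      _ = _ := by
          have : (Set.Iio n₁).ncard = n₁ := by
            rw [← Finset.coe_range, Set.ncard_coe_finset, Finset.card_range]
          rw [this]
  have hcard' : (Nat.card {n : ℕ | n ≤ N ∧ ∃ q : ℕ,
        (q : ℝ) ≤ (Real.log n) ^ 2 * Real.log (Real.log n) / w n ∧ Good n q} : ℝ) ≤
      n₁ + (Nat.card {n : ℕ | n ≤ N ∧ ∃ q, q ≤ y ∧ Good n q} : ℝ) := by exact_mod_cast hcard
  have hb := hmain N y (by omega) (by omega)
  rw [← hLdef] at hb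
  have hb2 : C * N * ((y : ℝ) / Real.log y) / L ^ 2 ≤ ε / 2 * N := by
    calc C * N * ((y : ℝ) / Real.log y) / L ^ 2 ≤ C * N * (2 * L ^ 2 / K) / L ^ 2 := by gcongr
      _ = 2 * C * N / K := by field_simp
      _ = ε / 2 * N := by
          rw [hK]
          field_simp
          ring
  have hn₁N : (n₁ : ℝ) < ε / 2 * N := by
    have e1 : (N₂ : ℝ) ≤ N := by exact_mod_cast hNN₂
    have e2 : (n₁ : ℝ) * 2 / ε < N := lt_of_lt_of_le hN₂ e1
    rw [div_lt_iff₀ hε] at e2
    linarith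
  rw [Real.dist_eq, sub_zero, abs_of_nonneg (by positivity), div_lt_iff₀ hN0]
  linarith

end Pool.Agent.Results.MP_3063eb_nt.LeastGood
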